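import Pool.Agent.Helper11_COV.Stmt

set_option autoImplicit false

/-!
Squad COV, module BKP: the in-block invariant at a prime.
-/

namespace Pool.Agent.COV.H24

open Finset Classical

lemma SC_pos : 0 < SC := by unfold SC; norm_num

lemma mn_aux (x S : ℕ) : (bif Nat.ble x S then x else S) ≤ S := by
  cases h : Nat.ble x S with
  | true => exact Nat.le_of_ble_eq_true h
  | false => exact le_refl S

lemma mn_aux2 (x S : ℕ) (r : ℝ) (h1 : r ≤ x) (h2 : r ≤ S) :
    r ≤ ((bif Nat.ble x S then x else S : ℕ) : ℝ) := by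
  cases h : Nat.ble x S with
  | true => exact h1
  | false => exact h2

lemma mn_le (x : ℕ) : mn x ≤ SC := mn_aux x SC

lemma mn_ge (x : ℕ) (r : ℝ) (h1 : r ≤ x) (h2 : r ≤ (SC : ℕ)) : r ≤ ((mn x : ℕ) : ℝ) :=
  mn_aux2 x SC r h1 h2

set_option allowUnsafeReducibility true in
attribute [local irreducible] SC

lemma cd_ge (a b : ℕ) (hb : 0 < b) : (a : ℝ) / b ≤ (cd a b : ℕ) := by
  have hb' : (0 : ℝ) < b := by exact_mod_cast hb
  rw [div_le_iff₀ hb']
  have h : a ≤ (a / b + 1) * b := by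
    have := Nat.lt_succ_iff.mp (Nat.lt_of_lt_of_le (Nat.lt_succ_self a) (le_refl _))
    have h1 := Nat.div_add_mod a b
    have h2 := Nat.mod_lt a hb
    nlinarith
  have : ((a : ℕ) : ℝ) ≤ (((a / b + 1) * b : ℕ) : ℝ) := by exact_mod_cast h
  simpa [cd] using this

lemma div_le_real (a b : ℕ) : ((a / b : ℕ) : ℝ) ≤ (a : ℝ) / b := Nat.cast_div_le

lemma sub_ge (a b : ℕ) : (a : ℝ) - b ≤ ((a - b : ℕ) : ℝ) := by
  rcases le_total b a with h | h
  · rw [Nat.cast_sub h]
  · have : (a : ℝ) ≤ b := by exact_mod_cast h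
    have h0 : (0 : ℝ) ≤ ((a - b : ℕ) : ℝ) := by positivity
    linarith

lemma wt_nn (c : ℕ → ℕ) (p : ℕ) : 0 ≤ wt c p :=
  Finset.sum_nonneg (fun j _ => by positivity)

lemma wt2_nn (c : ℕ → ℕ) (p : ℕ) : 0 ≤ wt2 c p :=
  Finset.sum_nonneg (fun j _ => by positivity)

lemma pt_nonneg (s : ℝ) (x : ℕ) : 0 ≤ pt s x := le_max_left _ _

lemma pt_anti (s : ℝ) {x y : ℕ} (h : x ≤ y) : pt s y ≤ pt s x := by
  unfold pt
  have : (x : ℝ) ≤ y := by exact_mod_cast h
  exact max_le_max le_rfl (by linarith)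

lemma pt_half (s : ℝ) (x : ℕ) : 2 * pt (s / 2) x = pt s (2 * x) := by
  unfold pt
  push_cast
  rcases le_total 0 (s / 2 - x) with h | h
  · rw [max_eq_right h, max_eq_right (by linarith)]; ring
  · rw [max_eq_left h, max_eq_left (by linarith)]; ring

/-- convexity: the put at `3x` is at most the mean of the puts at `2x` and `4x` -/
lemma pt_conv (s : ℝ) (x : ℕ) : pt s (3 * x) ≤ (1 / 2) * pt s (2 * x) + (1 / 2) * pt s (4 * x) := by
  unfold pt
  push_cast
  have h1 : s - 2 * (x : ℝ) ≤ max 0 (s - 2 * (x : ℝ)) := le_max_right _ _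
  have h2 : s - 4 * (x : ℝ) ≤ max 0 (s - 4 * (x : ℝ)) := le_max_right _ _
  have h3 : (0 : ℝ) ≤ max 0 (s - 2 * (x : ℝ)) := le_max_left _ _
  have h4 : (0 : ℝ) ≤ max 0 (s - 4 * (x : ℝ)) := le_max_left _ _
  apply max_le
  · linarith
  · linarith

lemma pos_decomp (t x : ℕ) : max 0 ((x : ℝ) - t) = (x : ℝ) - t + pt t x := by
  unfold pt
  rcases le_total (0 : ℝ) ((x : ℝ) - t) with h | h
  · rw [max_eq_right h, max_eq_left (by linarith)]; ring
  · rw [max_eq_left h, max_eq_right (by linarith)]; ring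

theorem bkp (hDDP : DdpStmt) (hDDS : DdsStmt) (hWTB : WtbStmt) (hMLA : MlaStmt) : BkpStmt := by
  obtain ⟨dlin, dmono, dconst, dcongr⟩ := hDDP
  obtain ⟨-, -, mphi, -, mmono, mscal⟩ := hMLA
  obtain ⟨wb1, -, wb3, -⟩ := hWTB
  intro c C n z t m s0 s1 M1 M2 T hn hz h2t htC hinv
  obtain ⟨W, t0, hgood, hs0, hs1, hput, hM1, hM2, hT⟩ := hinv
  have hn2 : 2 ≤ n := hn.two_le
  have hz1 : z ≤ 1 := by rcases hz with ⟨h, -⟩ | ⟨h, -⟩ <;> omega
  -- real quantities
  have hnz : 0 < n - z := by omega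
  have hD : 0 < n - z - t := by omega
  have eN : ((n - z : ℕ) : ℝ) = (n : ℝ) - z := by rw [Nat.cast_sub (by omega)]
  have eD : ((n - z - t : ℕ) : ℝ) = (n : ℝ) - z - t := by rw [Nat.cast_sub (by omega), eN]
  set D : ℝ := (n : ℝ) - z - t with hDdef
  have hDpos : 0 < D := by rw [← eD]; exact_mod_cast hD
  have hNpos : 0 < (n : ℝ) - z := by rw [← eN]; exact_mod_cast hnz
  have hnpos : (0 : ℝ) < n := by positivity
  have hn2r : (2 : ℝ) ≤ n := by exact_mod_cast hn2
  have h2tr : 2 * (t : ℝ) + z ≤ n := by exact_mod_cast h2t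
  have hND : (n : ℝ) - z ≤ 2 * D := by rw [hDdef]; linarith
  have hz0r : (0 : ℝ) ≤ z := by positivity
  have hz1r : (z : ℝ) ≤ 1 := by exact_mod_cast hz1
  have ht0r : (0 : ℝ) ≤ t := by positivity
  have hDne : D ≠ 0 := ne_of_gt hDpos
  have hNne : (n : ℝ) - z ≠ 0 := ne_of_gt hNpos
  have hnne : (n : ℝ) ≠ 0 := ne_of_gt hnpos
  -- new parameters
  set W' : ℕ → ℝ := Function.update W n (1 / ((n : ℝ) - z)) with hW'
  set t' : ℕ → ℝ := Function.update t0 n (t : ℝ) with ht'
  have hWn : W' n = 1 / ((n : ℝ) - z) := by simp [hW']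
  have htn : t' n = t := by simp [ht']
  have hWne : ∀ p, p ≠ n → W' p = W p := fun p hp => by simp [hW', hp]
  have htne : ∀ p, p ≠ n → t' p = t0 p := fun p hp => by simp [ht', hp]
  have hWt : 1 - W' n * t' n = D / ((n : ℝ) - z) := by
    rw [hWn, htn, hDdef]; field_simp
  have hνn : nu W' t' n = ((n : ℝ) - z) / D := by
    unfold nu; rw [hWt, one_div_div]
  have hνne : ∀ p, p ≠ n → nu W' t' p = nu W t0 p := fun p hp => by
    unfold nu; rw [hWne p hp, htne p hp]
  have hν2 : ((n : ℝ) - z) / D ≤ 2 := by rw [div_le_iff₀ hDpos]; linarith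
  have hwt : wt c n ≤ 1 / ((n : ℝ) - z) := by
    rcases hz with ⟨h, -⟩ | ⟨h, h'⟩
    · rw [h]; push_cast; exact (wb1 c n hn2).1
    · rw [h, (wb3 c n h').1]; simp
  have hwt2 : wt2 c n ≤ (3 * (n : ℝ) - z) / (((n : ℝ) - z) ^ 2) := by
    rcases hz with ⟨h, -⟩ | ⟨h, h'⟩
    · rw [h]; push_cast; exact (wb1 c n hn2).2
    · rw [h, (wb3 c n h').2]
      push_cast
      rw [sub_zero, sub_zero]
      apply le_of_eq
      field_simp
  have hwt0 : 0 ≤ wt c n := wt_nn c n
  have hwt20 : 0 ≤ wt2 c n := wt2_nn c n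
  have hgood' : Good c (n + 1) W' t' := by
    intro p hp hpp
    rcases Nat.lt_succ_iff_lt_or_eq.mp hp with h | h
    · rw [hWne p h.ne, htne p h.ne]; exact hgood p h hpp
    · subst h
      refine ⟨?_, ?_, ?_, ?_⟩
      · rw [hWn]; exact hwt
      · rw [htn]; exact ht0r
      · have : 0 < 1 - W' p * t' p := by rw [hWt]; positivity
        linarith
      · rw [hWt, one_div_div]
        linarith
  have hνb : ∀ p < n + 1, p.Prime → 0 ≤ nu W' t' p ∧ nu W' t' p ≤ p := by
    intro p hp hpp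
    obtain ⟨-, -, h3, h4⟩ := hgood' p hp hpp
    refine ⟨?_, h4⟩
    unfold nu
    apply le_of_lt
    apply one_div_pos.mpr
    linarith
  have hνb' : ∀ p < n, p.Prime → 0 ≤ nu W' t' p ∧ nu W' t' p ≤ p := fun p hp hpp =>
    hνb p (Nat.lt_succ_of_lt hp) hpp
  have hcong : ∀ k ≤ n, ∀ f : ℕ → ℝ, DD c (nu W' t') k f = DD c (nu W t0) k f := by
    intro k hk f
    apply dcongr
    intro p hp _
    exact hνne p (by omega)
  obtain ⟨ds1, ds2, ds3, ds4⟩ := hDDS c (nu W' t') n hn hνb
  -- nonnegativity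
  have hDDnn : ∀ f : ℕ → ℝ, (∀ x, 0 ≤ f x) → 0 ≤ DD c (nu W' t') n f := by
    intro f hf
    have h := dmono c (nu W' t') n (fun _ => 0) f hνb' (fun x _ => hf x)
    rwa [dconst] at h
  have hSC : (0 : ℝ) < SC := by exact_mod_cast SC_pos
  refine ⟨W', t', hgood', ?_, ?_, ?_, ?_, ?_, ?_⟩
  · exact le_trans (Nat.sub_le _ _) hs0
  · exact mn_le _
  · -- put functions
    intro s hs
    set P : ℕ → ℝ := fun k => Phi m (fun x => pt s (k * x)) with hP
    have hPm : ∀ k, Phi m (fun x => pt s (k * x)) = P k := fun k => rfl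
    have hP1 : Phi m (pt s) = P 1 := by
      rw [hP]; simp
    have hPanti : ∀ j k, j ≤ k → P k ≤ P j := by
      intro j k hjk
      apply mmono
      intro x
      exact pt_anti s (Nat.mul_le_mul_right x hjk)
    have hPnn : ∀ k, 0 ≤ P k := by
      intro k
      have := mmono m (fun _ => 0) (fun x => pt s (k * x)) (fun x => pt_nonneg _ _)
      have h0 : Phi m (fun _ => (0 : ℝ)) = 0 := by
        have := mscal m 0 (fun _ => (0 : ℝ))
        simpa using this
      rw [h0] at this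
      exact this
    -- invariant in terms of P
    have hinv1 : (SC : ℝ) * ((SC : ℝ) * DD c (nu W' t') n (pt s)) ≤
        SC * P 4 + s0 * (P 1 - P 2) + s1 * (P 2 - P 4) := by
      have := hput s hs
      rw [hP1] at this
      rw [hcong n le_rfl]
      exact this
    -- halving
    have hhalf : ∀ k : ℕ, Phi m (fun x => pt (s / 2) (k * x)) = (1 / 2) * P (2 * k) := by
      intro k
      rw [hP, ← mscal]
      congr 1
      funext x
      have := pt_half s (k * x)
      rw [mul_assoc 2 k x, ← this]; ring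
    have hhalf1 : Phi m (pt (s / 2)) = (1 / 2) * P 2 := by
      have := hhalf 1
      simpa using this
    have hquart : ∀ k : ℕ, Phi m (fun x => pt (s / 4) (k * x)) = (1 / 4) * P (4 * k) := by
      intro k
      rw [hP, ← mscal]
      congr 1
      funext x
      have h1 := pt_half (s / 2) (k * x)
      have h2 := pt_half s (2 * (k * x))
      have h3 : s / 4 = s / 2 / 2 := by ring
      have h4 : 4 * k * x = 2 * (2 * (k * x)) := by ring
      rw [h4, ← h2, ← h1, h3]; ring
    have hquart1 : Phi m (pt (s / 4)) = (1 / 4) * P 4 := by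
      have := hquart 1
      simpa using this
    have hC0 : (0 : ℝ) ≤ C := by positivity
    have hs2 : s / 2 ≤ C := by
      rcases le_total 0 s with h | h <;> linarith
    have hs4 : s / 4 ≤ C := by
      rcases le_total 0 s with h | h <;> linarith
    have s0r : (s0 : ℝ) ≤ SC := by exact_mod_cast hs0
    have s1r : (s1 : ℝ) ≤ SC := by exact_mod_cast hs1
    have s0n : (0 : ℝ) ≤ s0 := by positivity
    have s1n : (0 : ℝ) ≤ s1 := by positivity
    set D1 := DD c (nu W' t') n (pt s) with hD1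
    set D2 := DD c (nu W' t') n (fun x => pt s (2 * x)) with hD2
    set D3 := DD c (nu W' t') n (fun x => pt s (3 * x)) with hD3
    set D4 := DD c (nu W' t') n (fun x => pt s (4 * x)) with hD4
    have hinv2 : (SC : ℝ) * ((SC : ℝ) * D2) ≤ SC * P 4 + s0 * (P 2 - P 4) := by
      have h1 := hput (s / 2) hs2
      have h2 : D2 = 2 * DD c (nu W t0) n (pt (s / 2)) := by
        rw [hD2, ← hcong n le_rfl]
        have := ds4 s 2 (by norm_num)
        push_cast at this
        exact this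
      rw [hhalf1, hhalf 2, hhalf 4] at h1
      norm_num at h1
      rw [h2]
      have h4 : s1 * (P 4 - P 8) ≤ SC * (P 4 - P 8) :=
        mul_le_mul_of_nonneg_right s1r (sub_nonneg.mpr (hPanti 4 8 (by norm_num)))
      nlinarith
    have hinv4 : (SC : ℝ) * ((SC : ℝ) * D4) ≤ SC * P 4 := by
      have h1 := hput (s / 4) hs4
      have h2 : D4 = 4 * DD c (nu W t0) n (pt (s / 4)) := by
        rw [hD4, ← hcong n le_rfl]
        have := ds4 s 4 (by norm_num)
        push_cast at this
        exact this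
      rw [hquart1, hquart 2, hquart 4] at h1
      norm_num at h1
      rw [h2]
      have h4 : s1 * (P 8 - P 16) ≤ SC * (P 8 - P 16) :=
        mul_le_mul_of_nonneg_right s1r (sub_nonneg.mpr (hPanti 8 16 (by norm_num)))
      have h5 : s0 * (P 4 - P 8) ≤ SC * (P 4 - P 8) :=
        mul_le_mul_of_nonneg_right s0r (sub_nonneg.mpr (hPanti 4 8 (by norm_num)))
      nlinarith
    have hconv : D3 ≤ (1 / 2) * D2 + (1 / 2) * D4 := by
      rw [hD2, hD3, hD4, ← dlin]
      exact dmono c (nu W' t') n _ _ hνb' (fun x _ => pt_conv s x)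
    -- u and the step
    set u : ℝ := ((n : ℝ) - z) / (n * D) with hu
    have hu0 : 0 ≤ u := by rw [hu]; positivity
    have hu1 : u ≤ 1 := by
      rw [hu, div_le_one (by positivity)]
      nlinarith
    have hνu : nu W' t' n / (n : ℝ) = u := by
      rw [hνn, hu]; field_simp
    have hstep : DD c (nu W' t') (n + 1) (pt s) ≤
        (1 - u) * D1 + (u - u * z / (2 * n)) * D2 + (u * z / (2 * n)) * D4 := by
      rcases hz with ⟨h, h'⟩ | ⟨h, h'⟩
      · have h1 := ds3 s 2 h'
        rw [Finset.sum_range_succ, Finset.sum_range_succ, Finset.sum_range_zero] at h1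
        norm_num at h1
        have e1 : (DD c (nu W' t') n fun x => pt s (2 * x)) = D2 := rfl
        have e3 : (DD c (nu W' t') n fun x => pt s (3 * x)) = D3 := rfl
        have e0 : (DD c (nu W' t') n fun x => pt s x) = D1 := rfl
        rw [h]
        have hu2 : nu W' t' n / (n : ℝ) ^ 2 = u / n := by
          rw [← hνu]; field_simp
        simp only [e1, e3, e0] at h1
        rw [hνu, hu2] at h1
        have hun : 0 ≤ u / n := by positivity
        have h5 : u / n * D3 ≤ u / n * ((1 / 2) * D2 + (1 / 2) * D4) :=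
          mul_le_mul_of_nonneg_left hconv hun
        have h6 : u * ((1 : ℕ) : ℝ) / (2 * n) = u / n / 2 := by
          push_cast; field_simp
        rw [h6]
        nlinarith
      · have h1 := ds3 s 1 h'.ge
        rw [Finset.sum_range_succ, Finset.sum_range_zero] at h1
        norm_num at h1
        have e1 : (DD c (nu W' t') n fun x => pt s (2 * x)) = D2 := rfl
        have e0 : (DD c (nu W' t') n fun x => pt s x) = D1 := rfl
        rw [h]
        simp only [e1, e0] at h1
        rw [hνu] at h1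
        push_cast
        rw [mul_zero, zero_div]
        linarith
    -- combine
    have hv0 : 0 ≤ u * z / (2 * n) := by positivity
    have hv1 : u * z / (2 * n) ≤ u := by
      rw [div_le_iff₀ (by positivity)]
      nlinarith
    set v : ℝ := u * z / (2 * n) with hv
    have hmain : (SC : ℝ) * ((SC : ℝ) * DD c (nu W' t') (n + 1) (pt s)) ≤
        SC * P 4 + ((1 - u) * s0) * (P 1 - P 2) + ((1 - u) * s1 + (u - v) * s0) * (P 2 - P 4) := by
      have a1 : (1 - u) * ((SC : ℝ) * ((SC : ℝ) * D1)) ≤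
          (1 - u) * (SC * P 4 + s0 * (P 1 - P 2) + s1 * (P 2 - P 4)) :=
        mul_le_mul_of_nonneg_left hinv1 (by linarith)
      have a2 : (u - v) * ((SC : ℝ) * ((SC : ℝ) * D2)) ≤ (u - v) * (SC * P 4 + s0 * (P 2 - P 4)) :=
        mul_le_mul_of_nonneg_left hinv2 (by linarith)
      have a4 : v * ((SC : ℝ) * ((SC : ℝ) * D4)) ≤ v * (SC * P 4) :=
        mul_le_mul_of_nonneg_left hinv4 hv0
      have a0 : (SC : ℝ) * ((SC : ℝ) * DD c (nu W' t') (n + 1) (pt s)) ≤
          (SC : ℝ) * ((SC : ℝ) * ((1 - u) * D1 + (u - v) * D2 + v * D4)) :=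
        mul_le_mul_of_nonneg_left (mul_le_mul_of_nonneg_left hstep hSC.le) hSC.le
      calc _ ≤ _ := a0
        _ = (1 - u) * ((SC : ℝ) * ((SC : ℝ) * D1)) + (u - v) * ((SC : ℝ) * ((SC : ℝ) * D2)) +
            v * ((SC : ℝ) * ((SC : ℝ) * D4)) := by ring
        _ ≤ (1 - u) * (SC * P 4 + s0 * (P 1 - P 2) + s1 * (P 2 - P 4)) +
            (u - v) * (SC * P 4 + s0 * (P 2 - P 4)) + v * (SC * P 4) := by linarith
        _ = _ := by ring
    have hq0 : ((1 - u) * s0 : ℝ) ≤ ((s0 - s0 * (n - z) / (n * (n - z - t)) : ℕ) : ℝ) := by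
      have h1 := sub_ge s0 (s0 * (n - z) / (n * (n - z - t)))
      have h2 := div_le_real (s0 * (n - z)) (n * (n - z - t))
      push_cast at h2
      rw [eN, eD] at h2
      have h3 : (s0 : ℝ) * ((n : ℝ) - z) / (n * D) = u * s0 := by rw [hu]; ring
      rw [h3] at h2
      nlinarith
    have hq1 : ((1 - u) * s1 + (u - v) * s0 : ℝ) ≤
        ((mn (s1 - s1 * (n - z) / (n * (n - z - t)) +
          cd (s0 * (n - z) * (2 * n - z)) (2 * n * (n * (n - z - t)))) : ℕ) : ℝ) := by
      have h1 := sub_ge s1 (s1 * (n - z) / (n * (n - z - t)))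
      have h2 := div_le_real (s1 * (n - z)) (n * (n - z - t))
      push_cast at h2
      rw [eN, eD] at h2
      have h3 : (s1 : ℝ) * ((n : ℝ) - z) / (n * D) = u * s1 := by rw [hu]; ring
      rw [h3] at h2
      have h4 := cd_ge (s0 * (n - z) * (2 * n - z)) (2 * n * (n * (n - z - t))) (by positivity)
      have e2n : ((2 * n - z : ℕ) : ℝ) = 2 * n - z := by
        rw [Nat.cast_sub (by omega)]; push_cast; ring
      push_cast at h4
      rw [eN, eD, e2n] at h4
      have h5 : (s0 : ℝ) * ((n : ℝ) - z) * (2 * n - z) / (2 * n * (n * D)) = (u - v) * s0 := by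
        rw [hv, hu]; field_simp
      rw [h5] at h4
      apply mn_ge
      · rw [Nat.cast_add]
        linarith
      · have g1 : (1 - u) * (s1 : ℝ) ≤ (1 - u) * SC := mul_le_mul_of_nonneg_left s1r (by linarith)
        have g2 : (u - v) * (s0 : ℝ) ≤ (u - v) * SC := mul_le_mul_of_nonneg_left s0r (by linarith)
        have g3 : (0 : ℝ) ≤ v * SC := mul_nonneg hv0 hSC.le
        linarith
    have b1 : ((1 - u) * s0 : ℝ) * (P 1 - P 2) ≤
        ((s0 - s0 * (n - z) / (n * (n - z - t)) : ℕ) : ℝ) * (P 1 - P 2) :=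
      mul_le_mul_of_nonneg_right hq0 (sub_nonneg.mpr (hPanti 1 2 (by norm_num)))
    have b2 := mul_le_mul_of_nonneg_right hq1 (sub_nonneg.mpr (hPanti 2 4 (by norm_num)))
    rw [hP1, hPm 2, hPm 4]
    linarith
  · -- mean
    rw [ds1]
    have h0 : 0 ≤ DD c (nu W' t') n (fun x => (x : ℝ)) := hDDnn _ (fun x => by positivity)
    rw [hcong n le_rfl] at h0 ⊢
    have h1 : nu W' t' n * wt c n ≤ 1 / D := by
      rw [hνn]
      calc ((n : ℝ) - z) / D * wt c n ≤ ((n : ℝ) - z) / D * (1 / ((n : ℝ) - z)) :=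
            mul_le_mul_of_nonneg_left hwt (by positivity)
        _ = 1 / D := by field_simp
    have h2 := cd_ge M1 (n - z - t) hD
    rw [eD] at h2
    have hM1nn : (0 : ℝ) ≤ M1 := by positivity
    have h3 : (SC : ℝ) * (DD c (nu W t0) n (fun x => (x : ℝ)) * (1 + nu W' t' n * wt c n)) ≤
        (SC : ℝ) * (DD c (nu W t0) n (fun x => (x : ℝ)) * (1 + 1 / D)) :=
      mul_le_mul_of_nonneg_left (mul_le_mul_of_nonneg_left (by linarith) h0) hSC.le
    have h4 : (SC : ℝ) * DD c (nu W t0) n (fun x => (x : ℝ)) * (1 + 1 / D) ≤ M1 * (1 + 1 / D) :=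
      mul_le_mul_of_nonneg_right hM1 (by positivity)
    push_cast
    calc _ ≤ _ := h3
      _ = (SC : ℝ) * DD c (nu W t0) n (fun x => (x : ℝ)) * (1 + 1 / D) := by ring
      _ ≤ M1 * (1 + 1 / D) := h4
      _ = M1 + M1 / D := by ring
      _ ≤ _ := by linarith
  · -- second moment
    rw [ds2]
    have h0 : 0 ≤ DD c (nu W' t') n (fun x => (x : ℝ) ^ 2) := hDDnn _ (fun x => by positivity)
    rw [hcong n le_rfl] at h0 ⊢
    have h1 : nu W' t' n * wt2 c n ≤ (3 * (n : ℝ) - z) / (((n : ℝ) - z) * D) := by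
      rw [hνn]
      calc ((n : ℝ) - z) / D * wt2 c n ≤
            ((n : ℝ) - z) / D * ((3 * (n : ℝ) - z) / (((n : ℝ) - z) ^ 2)) :=
            mul_le_mul_of_nonneg_left hwt2 (by positivity)
        _ = _ := by field_simp
    have h2 := cd_ge (M2 * (3 * n - z)) ((n - z) * (n - z - t)) (by positivity)
    have e3n : ((3 * n - z : ℕ) : ℝ) = 3 * n - z := by
      rw [Nat.cast_sub (by omega)]; push_cast; ring
    push_cast at h2
    rw [eD, eN, e3n] at h2
    have h3n : (0 : ℝ) ≤ 3 * n - z := by linarith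
    have hq : (0 : ℝ) ≤ (3 * (n : ℝ) - z) / (((n : ℝ) - z) * D) := by positivity
    have h3 : (SC : ℝ) * (DD c (nu W t0) n (fun x => (x : ℝ) ^ 2) * (1 + nu W' t' n * wt2 c n)) ≤
        (SC : ℝ) * (DD c (nu W t0) n (fun x => (x : ℝ) ^ 2) *
          (1 + (3 * (n : ℝ) - z) / (((n : ℝ) - z) * D))) :=
      mul_le_mul_of_nonneg_left (mul_le_mul_of_nonneg_left (by linarith) h0) hSC.le
    have h4 : (SC : ℝ) * DD c (nu W t0) n (fun x => (x : ℝ) ^ 2) *
        (1 + (3 * (n : ℝ) - z) / (((n : ℝ) - z) * D)) ≤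
        M2 * (1 + (3 * (n : ℝ) - z) / (((n : ℝ) - z) * D)) :=
      mul_le_mul_of_nonneg_right hM2 (by positivity)
    push_cast
    calc _ ≤ _ := h3
      _ = (SC : ℝ) * DD c (nu W t0) n (fun x => (x : ℝ) ^ 2) *
          (1 + (3 * (n : ℝ) - z) / (((n : ℝ) - z) * D)) := by ring
      _ ≤ M2 * (1 + (3 * (n : ℝ) - z) / (((n : ℝ) - z) * D)) := h4
      _ = M2 + M2 * (3 * n - z) / (((n : ℝ) - z) * D) := by ring
      _ ≤ _ := by linarith
  · -- cost
    have hcost : cost c W' t' (n + 1) = cost c W t0 n +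
        1 / D * DD c (nu W t0) n (fun x => max 0 ((x : ℝ) - t)) := by
      unfold cost
      rw [Finset.range_add_one, Finset.filter_insert, if_pos hn, Finset.sum_insert (by simp)]
      rw [hWt, hWn, htn, hcong n le_rfl, add_comm]
      congr 1
      · apply Finset.sum_congr rfl
        intro p hp
        have hpn : p < n := by
          rw [Finset.mem_filter, Finset.mem_range] at hp; exact hp.1
        rw [hWne p hpn.ne, htne p hpn.ne, hcong p hpn.le]
      · congr 1
        field_simp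
    rw [hcost]
    have hdec : DD c (nu W t0) n (fun x => max 0 ((x : ℝ) - t)) =
        DD c (nu W t0) n (fun x => (x : ℝ)) - t + DD c (nu W t0) n (pt t) := by
      have e1 : (fun x : ℕ => max 0 ((x : ℝ) - t)) =
          fun x : ℕ => 1 * ((fun x : ℕ => 1 * (x : ℝ) + (-1) * ((fun _ => (t : ℝ)) x)) x) + 1 * pt t x := by
        funext x
        rw [pos_decomp]
        ring
      rw [e1, dlin, dlin, dconst]
      ring
    have hnn : 0 ≤ DD c (nu W t0) n (fun x => max 0 ((x : ℝ) - t)) := by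
      rw [← hcong n le_rfl]
      exact hDDnn _ (fun x => le_max_left _ _)
    have htC' : (t : ℝ) ≤ C := by exact_mod_cast htC
    have hp := hput t htC'
    have p1 : Phi m (pt t) = ((phi t 1 m : ℕ) : ℝ) := by
      rw [mphi]; simp
    have p2 := (mphi t 2 m).symm
    have p4 := (mphi t 4 m).symm
    rw [p1, p2, p4] at hp
    have m12 : phi t 2 m ≤ phi t 1 m := by
      have : ((phi t 2 m : ℕ) : ℝ) ≤ ((phi t 1 m : ℕ) : ℝ) := by
        rw [mphi, mphi]
        exact mmono _ _ _ (fun x => pt_anti _ (by omega))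
      exact_mod_cast this
    have m24 : phi t 4 m ≤ phi t 2 m := by
      have : ((phi t 4 m : ℕ) : ℝ) ≤ ((phi t 2 m : ℕ) : ℝ) := by
        rw [mphi, mphi]
        exact mmono _ _ _ (fun x => pt_anti _ (by omega))
      exact_mod_cast this
    set K := s0 * (phi t 1 m - phi t 2 m) + s1 * (phi t 2 m - phi t 4 m) with hK
    have hKr : (K : ℝ) = s0 * ((phi t 1 m : ℝ) - phi t 2 m) + s1 * ((phi t 2 m : ℝ) - phi t 4 m) := by
      rw [hK]; push_cast [Nat.cast_sub m12, Nat.cast_sub m24]; ring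
    have hSCn : 0 < SC := SC_pos
    have c1 := cd_ge K SC hSCn
    have hpt : (SC : ℝ) * DD c (nu W t0) n (pt t) ≤ phi t 4 m + cd K SC := by
      have h1 : (SC : ℝ) * ((SC : ℝ) * DD c (nu W t0) n (pt t)) ≤ SC * (phi t 4 m + (K : ℝ) / SC) := by
        rw [mul_add, mul_div_cancel₀ _ hSC.ne', hKr]
        linarith
      have h2 := le_of_mul_le_mul_left h1 hSC
      linarith
    set E := cd K SC + M1 + phi t 4 m - t * SC with hE
    have hEr : (SC : ℝ) * DD c (nu W t0) n (fun x => max 0 ((x : ℝ) - t)) ≤ (E : ℝ) := by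
      have h1 := sub_ge (cd K SC + M1 + phi t 4 m) (t * SC)
      push_cast at h1
      rw [hdec]
      rw [hE]
      push_cast
      push_cast at h1
      nlinarith
    have c2 := cd_ge E (n - z - t) hD
    rw [eD] at c2
    push_cast
    have h5 : (SC : ℝ) * (1 / D * DD c (nu W t0) n (fun x => max 0 ((x : ℝ) - t))) ≤ (E : ℝ) / D := by
      calc _ = (SC : ℝ) * DD c (nu W t0) n (fun x => max 0 ((x : ℝ) - t)) / D := by ring
        _ ≤ _ := div_le_div_of_nonneg_right hEr hDpos.le
    rw [mul_add]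
    linarith

end Pool.Agent.COV.H24
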