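import Pool.Agent.COV.StmtsB

set_option autoImplicit false

namespace Pool.Agent.COV.H24

open Polynomial Pool.Agent.KDT.Z

theorem ev_rf {k U : Type} [Field k] [Field U] [Algebra k U] (ev : RatFunc k →ₐ[k] U) (P : k[X]) :
    ev (rf P) = aeval (ev RatFunc.X) P := by
  rw [rf, ← RatFunc.aeval_X_left_eq_algebraMap, ← Polynomial.aeval_algHom_apply]

theorem rf_ne {k : Type} [Field k] {P : k[X]} (h : P ≠ 0) : rf P ≠ 0 := by
  rw [rf]
  exact (map_ne_zero_iff _ (IsFractionRing.injective k[X] (RatFunc k))).mpr h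

theorem fld (hA : AlgStmt) (hF : FixStmt) (hL : LurStmt) : FldStmt := by
  intro k U _ _ _ f g hE d s hd hs hs1 m z hm hinj hnk hom hG
  haveI := hE.kc
  haveI := hE.oc
  haveI := hE.ch
  classical
  obtain ⟨hF1, hF2, hF3⟩ := hF k U f g hE
  have hf0 : f ≠ 0 := hE.mo.ne_zero
  have hg : ∀ x : U, g.eval x = aeval x f := by
    intro x
    rw [hE.gm, eval_map_algebraMap]
  -- the b-coordinates are not zero
  have hb : ∀ l, (z l).b ≠ 0 := by
    intro l h0
    have h1 := (z l).on
    rw [h0, hg] at h1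
    have h2 : aeval (z l).a f = 0 := by
      rw [← h1]
      ring
    apply hnk l
    have h3 : (f.map (algebraMap k U)).IsRoot (z l).a := by
      rw [IsRoot, eval_map_algebraMap]
      exact h2
    exact (IsAlgClosed.splits f).mem_range_of_isRoot hf0 h3
  let i0 : Fin m := ⟨0, by omega⟩
  obtain ⟨ev, hev⟩ := hF1 (z i0).a (hnk i0)
  let Ξ : Finset U := Finset.univ.image fun i => (z i).a
  have hΞ : ∀ y, y ∈ Ξ ↔ ∃ i, (z i).a = y := by
    intro y
    simp only [Ξ, Finset.mem_image, Finset.mem_univ, true_and]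
  have hcard : Ξ.card = m := by
    rw [Finset.card_image_of_injective _ hinj, Finset.card_univ, Fintype.card_fin]
  -- the action on the points
  have hact : ∀ σ : U ≃ₐ[k] U, σ (z i0).a ∈ Ξ → ∃ (e : U) (p : Fin m → Fin m),
      (e = 1 ∨ e = -1) ∧ Function.Bijective p ∧ ∀ l, σ (z l).a = (z (p l)).a ∧
        σ (z l).b = e * (z (p l)).b := by
    intro σ hσ
    obtain ⟨i', hi'⟩ := (hΞ _).mp hσ
    obtain ⟨e, he, hl⟩ := hG σ i0 i' hi'.symm
    choose p hp using hl
    refine ⟨e, p, he, ?_, hp⟩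
    apply Finite.injective_iff_bijective.mp
    intro a b hab
    apply hinj
    apply σ.injective
    change σ (z a).a = σ (z b).a
    rw [(hp a).1, (hp b).1, hab]
  obtain ⟨P, Q, hPQ, hwr, hdeg, hθ, hInK⟩ := hL k U f g hE ev Ξ
    (by rw [hev]; exact (hΞ _).mpr ⟨i0, rfl⟩)
    (by
      intro y hy
      obtain ⟨i, rfl⟩ := (hΞ y).mp hy
      exact hnk i)
    (by
      intro σ hσ y hy
      rw [hev] at hσ
      obtain ⟨e, p, he, hp, hpl⟩ := hact σ hσ
      obtain ⟨i, rfl⟩ := (hΞ y).mp hy
      rw [(hpl i).1]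
      exact (hΞ _).mpr ⟨p i, rfl⟩)
  rw [hev] at hθ hInK
  -- the vector v
  obtain ⟨j, hj⟩ : ∃ j : ℕ, ∑ l, (z l).b * (z l).a ^ j ≠ 0 := by
    by_contra hcon
    push Not at hcon
    have h1 := Matrix.eq_zero_of_forall_pow_sum_mul_pow_eq_zero (f := fun l => (z l).a)
      (v := fun l => (z l).b) hinj (fun i => hcon i)
    exact hb i0 (congrFun h1 i0)
  set v : U := ∑ l, (z l).b * (z l).a ^ j with hv
  have hσv : ∀ (σ : U ≃ₐ[k] U) (e : U) (p : Fin m → Fin m), Function.Bijective p →
      (∀ l, σ (z l).a = (z (p l)).a ∧ σ (z l).b = e * (z (p l)).b) → σ v = e * v := by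
    intro σ e p hp hpl
    rw [hv, map_sum, Finset.mul_sum]
    simp only [map_mul, map_pow, (hpl _).1, (hpl _).2]
    rw [← Function.Bijective.sum_comp hp (fun l => e * ((z l).b * (z l).a ^ j))]
    exact Finset.sum_congr rfl fun l _ => by ring
  have hη : (z i0).b ≠ 0 := hb i0
  -- V
  obtain ⟨V, hV⟩ := hF2 ev (by rw [hev]; exact hnk i0) (v / (z i0).b) (by
    intro σ hσ
    rw [hev] at hσ
    obtain ⟨e, p, he, hp, hpl⟩ := hact σ (by rw [hσ]; exact (hΞ _).mpr ⟨i0, rfl⟩)
    have h1 : p i0 = i0 := by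
      apply hinj
      change (z (p i0)).a = (z i0).a
      rw [← (hpl i0).1, hσ]
    have h2 : σ (z i0).b = e * (z i0).b := by
      have := (hpl i0).2
      rw [h1] at this
      exact this
    have he0 : e ≠ 0 := by
      rcases he with h | h <;> rw [h] <;> simp
    rw [map_div₀, hσv σ e p hp hpl, h2, mul_div_mul_left _ _ he0])
  have hV0 : V ≠ 0 := by
    intro h0
    rw [h0, map_zero] at hV
    exact (div_ne_zero hj hη) hV.symm
  have hevf : ev (rf f) = (z i0).b ^ 2 := by
    rw [ev_rf, hev, (z i0).on, hg]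
  have hev0 : ∀ R : k[X], R ≠ 0 → aeval (z i0).a R ≠ 0 := by
    intro R hR h0
    rw [← hev, ← ev_rf, map_eq_zero] at h0
    exact rf_ne hR h0
  -- theta
  set p' : U := aeval (z i0).a P with hp'
  set q' : U := aeval (z i0).a Q with hq'
  set w' : U := aeval (z i0).a (wr P Q) with hw'
  have hw0 : w' ≠ 0 := hev0 _ hwr
  have hQ0 : Q ≠ 0 := by
    intro h0
    apply hwr
    rw [wr, h0]
    simp
  have hq0 : q' ≠ 0 := hev0 _ hQ0
  have hθe : ev (rf P / rf Q) = p' / q' := by
    rw [map_div₀, ev_rf, ev_rf, hev]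
  have hdξ : d (z i0).a ≠ 0 := by
    intro h0
    exact hnk i0 ((hd.1 _).mp h0)
  have hdθ : d (p' / q') = w' / q' ^ 2 * d (z i0).a := by
    rw [Derivation.leibniz_div, hp', hq', Derivation.map_aeval, Derivation.map_aeval, hw', wr,
      map_sub, map_mul, map_mul]
    simp only [smul_eq_mul]
    rw [← hq', ← hp']
    field_simp
  have hdθ0 : d (p' / q') ≠ 0 := by
    rw [hdθ]
    exact mul_ne_zero (div_ne_zero hw0 (pow_ne_zero 2 hq0)) hdξ
  have hres : Cov (max P.natDegree Q.natDegree) f := by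
    refine hA k f s P Q V hE.d5 hE.sf hs hs1 hPQ hwr (by rw [hdeg, hcard]; exact hm) hV0 ?_ ?_
    · apply hInK
      intro σ hσ
      obtain ⟨e, p, he, hp, hpl⟩ := hact σ hσ
      have h1 : ev (rf f * V ^ 2) = v ^ 2 := by
        rw [map_mul, map_pow, hevf, hV]
        field_simp
      rw [h1, map_pow, hσv σ e p hp hpl]
      rcases he with h | h <;> rw [h] <;> ring
    · apply hInK
      intro σ hσ
      obtain ⟨e, p, he, hp, hpl⟩ := hact σ hσ
      have he0 : e ≠ 0 := by
        rcases he with h | h <;> rw [h] <;> simp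
      have h1 : ev (rf s * V * rf Q ^ 2 / rf (wr P Q)) = om d s (z i0) * v / d (p' / q') := by
        rw [map_div₀, map_mul, map_mul, map_pow, ev_rf, ev_rf, ev_rf, hev, hV, hdθ, om,
          ← hq', ← hw']
        field_simp
      obtain ⟨u, hu0, hu⟩ := hd.2 σ
      have hσθ : σ (p' / q') = p' / q' := by
        rw [← hθe]
        exact hθ σ hσ
      have h2 : σ (d (p' / q')) = d (p' / q') / u := by
        have h3 := hu (p' / q')
        rw [hσθ] at h3
        rw [eq_div_iff hu0, mul_comm]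
        exact h3.symm
      have h3 : σ (d (z i0).a) = d (z (p i0)).a / u := by
        have h4 := hu (z i0).a
        rw [(hpl i0).1] at h4
        rw [eq_div_iff hu0, mul_comm]
        exact h4.symm
      have h4 : σ (aeval (z i0).a s) = aeval (z (p i0)).a s := by
        rw [← (hpl i0).1]
        exact (Polynomial.aeval_algHom_apply (σ : U →ₐ[k] U) (z i0).a s).symm
      have h5 : σ (om d s (z i0)) = om d s (z i0) / (u * e) := by
        have h7 : σ (om d s (z i0)) = om d s (z (p i0)) / (u * e) := by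
          unfold om
          rw [map_div₀, map_mul, h4, h3, (hpl i0).2]
          have hb' := hb (p i0)
          field_simp
        rw [h7, hom (p i0) i0]
      rw [h1, map_div₀, map_mul, h2, h5, hσv σ e p hp hpl]
      field_simp
  rw [hdeg, hcard] at hres
  exact hres

end Pool.Agent.COV.H24
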