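import Pool.Agent.COV.StmtsA

set_option autoImplicit false

namespace Pool.Agent.COV.H24

open Polynomial

/-- a nonzero functional on the coefficients 0..3 which kills all four polynomials -/
theorem dep {k : Type} [Field k] (R : Fin 4 → k[X]) (hR : ∀ i, (R i).natDegree ≤ 3)
    (v : Fin 4 → k) (hv : v ≠ 0)
    (h0 : ∀ i, (R i).coeff 0 * v 0 + (R i).coeff 1 * v 1 + (R i).coeff 2 * v 2 +
      (R i).coeff 3 * v 3 = 0) :
    ∃ c : Fin 4 → k, c ≠ 0 ∧ ∑ i, C (c i) * R i = 0 := by
  classical
  let M : Matrix (Fin 4) (Fin 4) k := fun i m => (R i).coeff m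
  have hM : M.mulVec v = 0 := by
    funext i
    have := h0 i
    simp only [Matrix.mulVec, dotProduct, Fin.sum_univ_four, M, Pi.zero_apply]
    exact this
  have hdet : M.det = 0 := Matrix.exists_mulVec_eq_zero_iff.mp ⟨v, hv, hM⟩
  obtain ⟨c, hc, hcM⟩ := Matrix.exists_vecMul_eq_zero_iff.mpr hdet
  refine ⟨c, hc, ?_⟩
  ext m
  rw [finset_sum_coeff, coeff_zero]
  simp only [coeff_C_mul]
  by_cases hm : m < 4
  · have h1 := congrFun hcM ⟨m, hm⟩
    simp only [Matrix.vecMul, dotProduct, M, Pi.zero_apply] at h1
    exact h1
  · refine Finset.sum_eq_zero fun i _ => ?_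
    have hi := hR i
    rw [coeff_eq_zero_of_natDegree_lt (by omega), mul_zero]

theorem gdi : GdiStmt := by
  intro k _ _ _ F s D R hF hsq hs hs1 h
  have hF0 : F ≠ 0 := by
    intro h0
    rw [h0, natDegree_zero] at hF
    omega
  -- it is enough to find the functional
  suffices H : ∃ v : Fin 4 → k, v ≠ 0 ∧ ∀ i, (R i).coeff 0 * v 0 + (R i).coeff 1 * v 1 +
      (R i).coeff 2 * v 2 + (R i).coeff 3 * v 3 = 0 by
    obtain ⟨v, hv, h0⟩ := H
    obtain ⟨c, hc, hcR⟩ := dep R (fun i => (h i).2.1) v hv h0
    refine ⟨c, hc, ?_⟩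
    have h1 : s * ∑ i, C (c i) * D i = 0 := by
      have h2 : s * ∑ i, C (c i) * D i = (∑ i, C (c i) * R i) * derivative F -
          2 * derivative (∑ i, C (c i) * R i) * F := by
        rw [derivative_sum]
        simp only [Fin.sum_univ_four, derivative_mul, derivative_C, zero_mul, zero_add]
        have e0 := (h 0).2.2
        have e1 := (h 1).2.2
        have e2 := (h 2).2.2
        have e3 := (h 3).2.2
        linear_combination C (c 0) * e0 + C (c 1) * e1 + C (c 2) * e2 + C (c 3) * e3
      rw [h2, hcR]
      simp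
    rcases mul_eq_zero.mp h1 with h3 | h3
    · exact absurd h3 hs
    · exact h3
  have hco : ∀ (P : k[X]) (n m : ℕ), P.natDegree ≤ n → n < m → P.coeff m = 0 := by
    intro P n m h1 h2
    exact coeff_eq_zero_of_natDegree_lt (by omega)
  rcases Nat.lt_or_ge s.natDegree 1 with h1 | h1
  · -- s is constant
    refine ⟨![0, 0, 2 * F.coeff 6, - F.coeff 5], ?_, ?_⟩
    · intro h2
      have h3 := congrFun h2 2
      simp only [Matrix.cons_val, Pi.zero_apply] at h3
      have h4 : F.coeff 6 = 0 := by
        rcases mul_eq_zero.mp h3 with h5 | h5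
        · exact absurd h5 two_ne_zero
        · exact h5
      apply hF0
      rw [← leadingCoeff_eq_zero, leadingCoeff, hF]
      exact h4
    · intro i
      obtain ⟨hD, hR, he⟩ := h i
      have h2 : (s * D i).coeff 7 = 0 := by
        apply coeff_eq_zero_of_natDegree_lt
        have := natDegree_mul_le (p := s) (q := D i)
        omega
      rw [he, coeff_sub, mul_assoc, ← C_ofNat, coeff_C_mul, coeff_mul, coeff_mul,
        Finset.Nat.sum_antidiagonal_eq_sum_range_succ_mk,
        Finset.Nat.sum_antidiagonal_eq_sum_range_succ_mk] at h2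
      simp only [Finset.sum_range_succ, Finset.sum_range_zero, coeff_derivative] at h2
      simp only [Matrix.cons_val]
      have a4 := hco _ _ 4 hR (by omega)
      have a5 := hco _ _ 5 hR (by omega)
      have a6 := hco _ _ 6 hR (by omega)
      have a7 := hco _ _ 7 hR (by omega)
      have a8 := hco _ _ 8 hR (by omega)
      have b7 := hco F 6 7 hF.le (by omega)
      have b8 := hco F 6 8 hF.le (by omega)
      norm_num [a4, a5, a6, a7, a8, b7, b8] at h2
      linear_combination h2
  · -- s has a root
    have hdeg : s.degree ≠ 0 := by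
      intro h2
      have h3 : s.natDegree = 0 := natDegree_eq_of_degree_eq_some h2
      omega
    obtain ⟨x, hx⟩ := IsAlgClosed.exists_root s hdeg
    have hx0 : s.eval x = 0 := hx
    have hsep : F.Separable := PerfectField.separable_iff_squarefree.mpr hsq
    refine ⟨![(derivative F).eval x, x * (derivative F).eval x - 2 * F.eval x,
      x ^ 2 * (derivative F).eval x - 4 * x * F.eval x,
      x ^ 3 * (derivative F).eval x - 6 * x ^ 2 * F.eval x], ?_, ?_⟩
    · intro h2
      have h3 := congrFun h2 0
      have h4 := congrFun h2 1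
      simp only [Matrix.cons_val, Pi.zero_apply] at h3 h4
      rw [h3, mul_zero, zero_sub, neg_eq_zero] at h4
      have h5 : F.eval x = 0 := by
        rcases mul_eq_zero.mp h4 with h6 | h6
        · exact absurd h6 two_ne_zero
        · exact h6
      obtain ⟨a, b, hab⟩ := hsep
      have h6 := congrArg (eval x) hab
      rw [eval_add, eval_mul, eval_mul, h5, h3, mul_zero, mul_zero, add_zero, eval_one] at h6
      exact zero_ne_one h6
    · intro i
      obtain ⟨hD, hR, he⟩ := h i
      have h2 := congrArg (eval x) he
      rw [eval_mul, hx0, zero_mul, eval_sub, eval_mul, eval_mul, eval_mul, eval_ofNat] at h2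
      have hR1 : (R i).eval x = (R i).coeff 0 + (R i).coeff 1 * x + (R i).coeff 2 * x ^ 2 +
          (R i).coeff 3 * x ^ 3 := by
        rw [eval_eq_sum_range' (n := 4) (by omega)]
        simp only [Finset.sum_range_succ, Finset.sum_range_zero]
        ring
      have hR2 : (derivative (R i)).eval x = (R i).coeff 1 + 2 * (R i).coeff 2 * x +
          3 * (R i).coeff 3 * x ^ 2 := by
        have := natDegree_derivative_le (R i)
        rw [eval_eq_sum_range' (n := 3) (by omega)]
        simp only [Finset.sum_range_succ, Finset.sum_range_zero, coeff_derivative]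
        push_cast
        ring
      rw [hR1, hR2] at h2
      simp only [Matrix.cons_val]
      linear_combination - h2

end Pool.Agent.COV.H24
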